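import Mathlib

/-!
# The Henson graphs are not sunflowerable

For every `n ≥ 3` the generic `K_n`-free graph `H_n` is not sunflowerable: already `k = 2` fails.
Enumerate the vertices of `H_n`, let `f v` be the first neighbour of `v` in the enumeration, and
replace the vertex `v` by the two-element set `{(v, 0), (f v, 1)}`.  If a set of vertices is a
sunflower, then `f` is constant on it, and then it lies in the neighbourhood of one vertex, which
contains no `K_{n-1}`, or `f` is injective on it, which is impossible for a copy of `H_n`: if `a`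
is in the copy then `a` has infinitely many neighbours `b` in the copy and for all of them the
vertex `f b` does not come after `a` in the enumeration.
-/

namespace Pool.Agent.Results.MP_ac8c78_lc.NotSunflowerable

open SimpleGraph

/-- `H` is a copy of the Henson graph `H_n`, i.e. of the Fraisse limit of the finite `K_n`-free
graphs: `H` is countable, every isomorphism between finite induced subgraphs of `H` extends to an
automorphism of `H`, and the finite graphs which embed into `H` as induced subgraphs are exactly
the `K_n`-free ones. -/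
structure IsHenson (n : ℕ) {V : Type} (H : SimpleGraph V) : Prop where
  countable : Countable V
  homogeneous : ∀ (A B : Finset V)
    (f : H.induce (A : Set V) ≃g H.induce (B : Set V)),
      ∃ F : H ≃g H, ∀ a : (A : Set V), F a = f a
  age : ∀ (m : ℕ) (K : SimpleGraph (Fin m)), Nonempty (K ↪g H) ↔ K.CliqueFree n

/-- A family `Y` of finite sets is a sunflower if there is a set `r` with `p ∩ q = r` for all
distinct members `p`, `q` of `Y`. -/
def IsSunflower {α : Type} (Y : Set (Finset α)) : Prop :=
  ∃ r : Set α, ∀ p ∈ Y, ∀ q ∈ Y, p ≠ q → (p : Set α) ∩ (q : Set α) = r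

/-- `M` is sunflowerable: whenever `M'` is a graph isomorphic to `M` whose vertex set `S` consists
of `k`-element sets, there is a set `M₀` of vertices of `M'` which is a sunflower and on which
`M'` induces a graph isomorphic to `M`. -/
def Sunflowerable {V : Type} (M : SimpleGraph V) : Prop :=
  ∀ (k : ℕ) (α : Type) (S : Set (Finset α)) (M' : SimpleGraph S),
    (∀ s ∈ S, s.card = k) → Nonempty (M' ≃g M) →
      ∃ M₀ : Set S, IsSunflower (Subtype.val '' M₀) ∧ Nonempty (M'.induce M₀ ≃g M)

section

variable {n : ℕ} {V : Type} {H : SimpleGraph V}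

/-- In a Henson graph every vertex has at least `m` neighbours, for every `m`. -/
lemma exists_neighbours (hn : 3 ≤ n) (hH : IsHenson n H) (a : V) (m : ℕ) :
    ∃ g : Fin m → V, Function.Injective g ∧ ∀ i, H.Adj a (g i) := by
  classical
  -- the star
  let K : SimpleGraph (Fin (m + 1)) :=
    SimpleGraph.fromRel (fun x y => x = 0)
  have hK : K.CliqueFree n := by
    have h3 : K.CliqueFree 3 := by
      intro t ht
      rw [SimpleGraph.is3Clique_iff] at ht
      obtain ⟨x, y, z, hxy, hxz, hyz, -⟩ := ht
      simp only [K, SimpleGraph.fromRel_adj] at hxy hxz hyz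
      rcases hxy with ⟨hne1, h1⟩
      rcases hxz with ⟨hne2, h2⟩
      rcases hyz with ⟨hne3, h3⟩
      rcases h1 with h1 | h1 <;> rcases h2 with h2 | h2 <;> rcases h3 with h3 | h3 <;>
        simp_all
    exact h3.mono hn
  obtain ⟨φ⟩ := (hH.age (m + 1) K).2 hK
  -- move the centre to `a`
  have hiso : Nonempty (H.induce (({φ 0} : Finset V) : Set V) ≃g
      H.induce (({a} : Finset V) : Set V)) := by
    refine ⟨⟨⟨fun _ => ⟨a, by simp⟩, fun _ => ⟨φ 0, by simp⟩, ?_, ?_⟩, ?_⟩⟩
    · rintro ⟨x, hx⟩
      apply Subtype.ext
      simpa using (by simpa using hx : x = φ 0).symm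
    · rintro ⟨x, hx⟩
      apply Subtype.ext
      simpa using (by simpa using hx : x = a).symm
    · rintro ⟨x, hx⟩ ⟨y, hy⟩
      have hx' : x = φ 0 := by simpa using hx
      have hy' : y = φ 0 := by simpa using hy
      subst hx'
      subst hy'
      simp
  obtain ⟨f⟩ := hiso
  obtain ⟨F, hF⟩ := hH.homogeneous _ _ f
  have hF0 : F (φ 0) = a := by
    have h1 := hF ⟨φ 0, by simp⟩
    have h2 := (f ⟨φ 0, by simp⟩).2
    have h3 : ((f ⟨φ 0, by simp⟩ : (({a} : Finset V) : Set V)) : V) = a := by
      simpa using h2
    rw [← h3]
    exact h1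
  refine ⟨fun i => F (φ i.succ), ?_, ?_⟩
  · intro i j hij
    have := φ.injective (F.injective hij)
    exact Fin.succ_injective _ this
  · intro i
    rw [← hF0]
    rw [F.map_adj_iff, φ.map_adj_iff]
    simp only [K, SimpleGraph.fromRel_adj]
    exact ⟨(Fin.succ_ne_zero i).symm, Or.inl trivial⟩

lemma cliqueFree (hH : IsHenson n H) : H.CliqueFree n := by
  by_contra hnot
  have φ : (⊤ : SimpleGraph (Fin n)) ↪g H := SimpleGraph.topEmbeddingOfNotCliqueFree hnot
  have h1 : (⊤ : SimpleGraph (Fin n)).CliqueFree n :=
    (hH.age n (⊤ : SimpleGraph (Fin n))).1 ⟨φ⟩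
  exact (SimpleGraph.IsNClique.not_cliqueFree (s := Finset.univ)
    ⟨SimpleGraph.IsClique.top _, by simp⟩) h1

end

/-- **Negative answer to Q1 of MP_ac8c78_lc, for every `n`.**  For no `n ≥ 3` is the Henson graph
`H_n` sunflowerable. -/
theorem result (n : ℕ) (hn : 3 ≤ n) {V : Type} (H : SimpleGraph V) (hH : IsHenson n H) :
    ¬ Sunflowerable H := by
  classical
  intro hsun
  have := hH.countable
  obtain ⟨e, he⟩ := exists_injective_nat V
  -- the first neighbour
  have hex : ∀ v : V, ∃ w, H.Adj v w ∧ ∀ u, H.Adj v u → e w ≤ e u := by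
    intro v
    obtain ⟨g, -, hg⟩ := exists_neighbours hn hH v 1
    have hP : ∃ m, ∃ w, H.Adj v w ∧ e w = m := ⟨_, g 0, hg 0, rfl⟩
    obtain ⟨w, hw, hwm⟩ := Nat.find_spec hP
    refine ⟨w, hw, fun u hu => ?_⟩
    rw [hwm]
    exact Nat.find_min' hP ⟨u, hu, rfl⟩
  choose f hf hfmin using hex
  let s : V → Finset (V × Bool) := fun v => {(v, false), (f v, true)}
  have hs : Function.Injective s := by
    intro v w hvw
    have h1 : (v, false) ∈ s w := by
      rw [← hvw]
      simp [s]
    simpa [s] using h1
  let E : V ≃ Set.range s := Equiv.ofInjective s hs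
  let M' : SimpleGraph (Set.range s) := H.comap E.symm
  obtain ⟨M₀, ⟨r, hr⟩, ⟨φ⟩⟩ := hsun 2 (V × Bool) (Set.range s) M' (by
    rintro _ ⟨v, rfl⟩
    simp [s]) ⟨SimpleGraph.Iso.comap E.symm H⟩
  -- the induced copy as an embedding of `H` into itself
  let g : V → V := fun a => E.symm (φ.symm a).1
  have hg_inj : Function.Injective g := by
    intro a b hab
    have h1 := E.symm.injective hab
    exact φ.symm.injective (Subtype.ext h1)
  have hg_adj : ∀ a b, H.Adj a b → H.Adj (g a) (g b) := by
    intro a b hab
    have h1 : (M'.induce M₀).Adj (φ.symm a) (φ.symm b) := φ.symm.map_adj_iff.2 hab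
    exact h1
  have hsg : ∀ a, s (g a) = ((φ.symm a).1 : Finset (V × Bool)) := by
    intro a
    have : E (g a) = (φ.symm a).1 := by simp [g]
    rw [← this]
    rfl
  have hinter : ∀ a b, a ≠ b → (s (g a) : Set (V × Bool)) ∩ (s (g b) : Set (V × Bool)) = r := by
    intro a b hab
    refine hr _ ?_ _ ?_ ?_
    · rw [hsg]
      exact ⟨_, (φ.symm a).2, rfl⟩
    · rw [hsg]
      exact ⟨_, (φ.symm b).2, rfl⟩
    · intro h
      exact hab (hg_inj (hs h))
  -- a vertex
  obtain ⟨ψ⟩ := (hH.age (n - 1) (⊤ : SimpleGraph (Fin (n - 1)))).2 (by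
    apply SimpleGraph.cliqueFree_of_card_lt
    simp
    omega)
  let a₀ : V := ψ ⟨0, by omega⟩
  let a₁ : V := ψ ⟨1, by omega⟩
  have ha01 : a₀ ≠ a₁ := by
    intro h
    have := ψ.injective h
    simp at this
  by_cases hemp : r = ∅
  · -- `f` is injective on the copy
    have hfinj : Function.Injective (fun a => f (g a)) := by
      intro a b hab
      by_contra hne
      have h1 := hinter a b hne
      rw [hemp] at h1
      have h2 : (f (g a), true) ∈ (s (g a) : Set (V × Bool)) ∩ (s (g b) : Set (V × Bool)) := by
        refine ⟨by simp [s], ?_⟩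
        simp only [s, Finset.coe_insert, Finset.coe_singleton, Set.mem_insert_iff,
          Set.mem_singleton_iff, Prod.mk.injEq, and_true]
        right
        exact hab
      rw [h1] at h2
      exact h2
    obtain ⟨q, hq, hqa⟩ := exists_neighbours hn hH a₀ (e (g a₀) + 2)
    have hle : ∀ i, e (f (g (q i))) < e (g a₀) + 1 := by
      intro i
      have := hfmin (g (q i)) (g a₀) (hg_adj _ _ (hqa i)).symm
      omega
    have hcard := Fintype.card_le_of_injective
      (fun i : Fin (e (g a₀) + 2) => (⟨e (f (g (q i))), hle i⟩ : Fin (e (g a₀) + 1)))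
      (by
        intro i j hij
        have h1 : e (f (g (q i))) = e (f (g (q j))) := by simpa using hij
        exact hq (hfinj (he h1)))
    simp at hcard
  · obtain ⟨x, hx⟩ := Set.nonempty_iff_ne_empty.2 hemp
    have hxall : ∀ a, x ∈ s (g a) := by
      intro a
      by_cases ha : a = a₀
      · subst ha
        have h1 := hinter a₀ a₁ ha01
        rw [← h1] at hx
        exact hx.1
      · have h1 := hinter a a₀ ha
        rw [← h1] at hx
        exact hx.1
    obtain ⟨u, b⟩ := x
    cases b with
    | false =>
      have h0 : u = g a₀ := by simpa [s] using hxall a₀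
      have h1 : u = g a₁ := by simpa [s] using hxall a₁
      exact ha01 (hg_inj (h0.symm.trans h1))
    | true =>
      have hfu : ∀ a, f (g a) = u := by
        intro a
        have h0 : u = f (g a) := by simpa [s] using hxall a
        exact h0.symm
      have hadj : ∀ a, H.Adj u (g a) := by
        intro a
        rw [← hfu a]
        exact (hf (g a)).symm
      -- an `n`-clique
      let C : Finset V := Finset.univ.image (fun i => g (ψ i))
      have hinj : Function.Injective (fun i => g (ψ i)) := hg_inj.comp ψ.injective
      have hC : H.IsNClique (n - 1) C := by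
        constructor
        · intro x hx y hy hxy
          simp only [C, Finset.coe_image, Finset.coe_univ, Set.image_univ, Set.mem_range] at hx hy
          obtain ⟨i, rfl⟩ := hx
          obtain ⟨j, rfl⟩ := hy
          refine hg_adj _ _ (ψ.map_adj_iff.2 ?_)
          rw [SimpleGraph.top_adj]
          rintro rfl
          exact hxy rfl
        · rw [Finset.card_image_of_injective _ hinj]
          simp
      have hC' := hC.insert (a := u) (by
        intro b hb
        simp only [C, Finset.mem_image, Finset.mem_univ, true_and] at hb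
        obtain ⟨i, rfl⟩ := hb
        exact hadj _)
      have hnn : n - 1 + 1 = n := by omega
      rw [hnn] at hC'
      exact cliqueFree hH _ hC'

end Pool.Agent.Results.MP_ac8c78_lc.NotSunflowerable
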